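import Pool.Agent.MP_bd74a7_nt.ApM

/-!
Points of an exponential curve modulo `p` in a box of side `M ≤ H`, for all primes `p` outside a set
of at most `113 H ^ 7 / Z ^ 6` integers.
-/

open Finset

namespace Pool.Agent.Results.MP_bd74a7_nt.AlmostAllPrimes

theorem result (H Z : ℕ) (hZ : 1 ≤ Z) (hZH : Z ^ 6 ≤ H ^ 5) :
    ∃ E : Finset ℕ, E.card * Z ^ 6 ≤ 113 * H ^ 7 ∧
      ∀ (p : ℕ) [Fact p.Prime], p ∉ E → ∀ M : ℕ, 2 ≤ M → M ≤ H →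
        (∀ (g : ℕ) (a K L : ℤ), 2 ≤ g → ¬ (p : ℤ) ∣ a → M < orderOf (g : ZMod p) →
          ((Icc (K + 1) (K + M) ×ˢ Icc (L + 1) (L + M)).filter
            fun xy : ℤ × ℤ => (xy.2 : ZMod p) = a * (g : ZMod p) ^ xy.1).card ≤
            (2 * Z - 1) * max 6 (Nat.log 2 (M - 1) + 2) + (Z - 1)) ∧
        ∃ (g : ℕ) (a K L : ℤ), 2 ≤ g ∧ ¬ (p : ℤ) ∣ a ∧ M < orderOf (g : ZMod p) ∧
          Nat.log 2 (M - 1) + 2 ≤ ((Icc (K + 1) (K + M) ×ˢ Icc (L + 1) (L + M)).filter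
            fun xy : ℤ × ℤ => (xy.2 : ZMod p) = a * (g : ZMod p) ^ xy.1).card := by
  have h1 : Z ≤ H := by
    by_contra c
    have := Nat.pow_lt_pow_left (not_le.1 c) (show 5 ≠ 0 by omega)
    have := Nat.pow_le_pow_right hZ (show 5 ≤ 6 by omega)
    omega
  obtain ⟨E, e1, e2, e3⟩ := Pool.Agent.MP_bd74a7_nt.Ap.main H Z hZ h1
  obtain ⟨F, f1, f2⟩ := Pool.Agent.MP_bd74a7_nt.Ap.ord H
  refine ⟨E ∪ F, ?_, fun p _ hp M h2 hM => ?_⟩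
  · have a1 := Nat.mul_le_mul_right (Z ^ 6) (card_union_le E F)
    have a2 : F.card * Z ^ 6 ≤ 2 * H ^ 7 := (Nat.mul_le_mul f1 hZH).trans_eq (by ring)
    rw [add_mul] at a1
    omega
  · rw [mem_union, not_or] at hp
    have p1 := e2 p hp.1
    obtain ⟨a, K, L, b1, b2⟩ := Pool.Agent.MP_bd74a7_nt.Ap.low p M h2 (by omega)
    exact ⟨fun g a K L _ ha ht => e3 p hp.1 g a K L M ha hM ht,
      p - 2, a, K, L, by omega, b1, hM.trans_lt (f2 p hp.2 (by omega)), b2⟩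

end Pool.Agent.Results.MP_bd74a7_nt.AlmostAllPrimes
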